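import Pool.Agent.BOG.Stmts
import Pool.Agent.Helper61_Gamma.Rep

/-!
Row MAT of table bog (MP_9a4f8a_co).
-/

set_option autoImplicit false

namespace Pool.Agent.BOG.H90

open Pool.Agent.BOG Pool.Agent.Helper61_Gamma

universe u v

/-- two independent points are contained in an independent triple -/
lemma third' {α : Type u} {M : Matroid α} (hs : IsSimple M) (hr : M.eRank = 3) {s t : α}
    (hsE : s ∈ M.E) (htE : t ∈ M.E) (hst : s ≠ t) :
    ∃ r ∈ M.E, s ≠ r ∧ t ≠ r ∧ M.Indep {s, t, r} := by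
  obtain ⟨B, hB, hsub⟩ := (hs s hsE t htE).exists_isBase_superset
  have hcard : B.encard = 3 := by rw [hB.encard_eq_eRank, hr]
  have hne : ({s, t} : Set α) ≠ B := by
    rintro rfl
    rw [Set.encard_pair hst] at hcard
    norm_num at hcard
  obtain ⟨r, hrB, hrs⟩ := Set.exists_of_ssubset (hsub.ssubset_of_ne hne)
  simp only [Set.mem_insert_iff, Set.mem_singleton_iff, not_or] at hrs
  refine ⟨r, hB.subset_ground hrB, Ne.symm hrs.1, Ne.symm hrs.2, hB.indep.subset ?_⟩
  intro x hx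
  simp only [Set.mem_insert_iff, Set.mem_singleton_iff] at hx
  rcases hx with rfl | rfl | rfl
  · exact hsub (by simp)
  · exact hsub (by simp)
  · exact hrB

lemma pair_of_Dt {K : Type v} [Field K] {x y z : Fin 3 → K} (h : Dt x y z ≠ 0) :
    LinearIndependent K ![x, y] := by
  rw [LinearIndependent.pair_iff]
  intro s t hst
  have h0 := congrFun hst 0
  have h1 := congrFun hst 1
  have h2 := congrFun hst 2
  simp only [Pi.add_apply, Pi.smul_apply, smul_eq_mul, Pi.zero_apply] at h0 h1 h2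
  have hs : s * Dt x y z = 0 := by
    simp only [Dt]
    linear_combination (y 1 * z 2 - y 2 * z 1) * h0 - (y 0 * z 2 - y 2 * z 0) * h1 +
      (y 0 * z 1 - y 1 * z 0) * h2
  have ht : t * Dt x y z = 0 := by
    simp only [Dt]
    linear_combination (-(x 1 * z 2) + x 2 * z 1) * h0 + (x 0 * z 2 - x 2 * z 0) * h1 -
      (x 0 * z 1 - x 1 * z 0) * h2
  exact ⟨(mul_eq_zero.mp hs).resolve_right h, (mul_eq_zero.mp ht).resolve_right h⟩

lemma Dt_self1 {K : Type v} [Field K] (x y : Fin 3 → K) : Dt x x y = 0 := by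
  simp only [Dt]
  ring

lemma Dt_self2 {K : Type v} [Field K] (x y : Fin 3 → K) : Dt x y x = 0 := by
  simp only [Dt]
  ring

lemma Dt_self3 {K : Type v} [Field K] (x y : Fin 3 → K) : Dt x y y = 0 := by
  simp only [Dt]
  ring

theorem mat (hksd : KsdStmt.{v}) (hgen : GenStmt.{v}) (hcnt : CntStmt) : MatStmt.{u, v} := by
  intro p hp n w hw hpn hineq α M hs hr hF K _ hch hK
  by_contra hlt
  have hN : (n : ℕ∞) ≤ M.E.encard := not_lt.mp hlt
  classical
  have hp1 : 1 ≤ p := hp.out.one_lt.le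
  obtain ⟨B, hB⟩ := M.exists_isBase
  have hBc : B.encard = 3 := by rw [hB.encard_eq_eRank, hr]
  have hBn : B.encard ≤ n := by
    rw [hBc]
    have : 3 ≤ n := by omega
    exact_mod_cast this
  obtain ⟨E0, hBE, hE0, hcard⟩ := Set.exists_superset_subset_encard_eq hB.subset_ground hBn hN
  have hfin : E0.Finite := Set.finite_of_encard_eq_coe hcard
  have hE' : (hfin.toFinset : Set α) = E0 := hfin.coe_toFinset
  have hc : hfin.toFinset.card = n := by
    have h1 : ((hfin.toFinset.card : ℕ) : ℕ∞) = n := by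
      rw [← Set.encard_coe_eq_coe_finsetCard, hE', hcard]
    exact_mod_cast h1
  let e0 : Fin n ≃ hfin.toFinset := (hfin.toFinset.equivFinOfCardEq hc).symm
  let e : Fin n → α := fun P => (e0 P : α)
  have heinj : Function.Injective e := fun P Q h => e0.injective (Subtype.ext h)
  have heE : ∀ P, e P ∈ M.E := by
    intro P
    have h1 : (e0 P : α) ∈ hfin.toFinset := (e0 P).2
    exact hE0 (hfin.mem_toFinset.mp h1)
  have hsurj : ∀ x ∈ E0, ∃ P, e P = x := by
    intro x hx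
    refine ⟨e0.symm ⟨x, hfin.mem_toFinset.mpr hx⟩, ?_⟩
    simp only [e, Equiv.apply_symm_apply]
  have hsing : ∀ x ∈ M.E, M.Indep {x} := by
    intro x hx
    have := hs x hx x hx
    rwa [Set.pair_eq_singleton] at this
  -- one point of the base
  obtain ⟨b0, b1, b2, h01, h02, h12, hb⟩ := Set.encard_eq_three.mp hBc
  have hbE : ∀ x ∈ B, x ∈ M.E := fun x hx => hB.subset_ground hx
  have hb0 : b0 ∈ B := by rw [hb]; simp
  have hb1 : b1 ∈ B := by rw [hb]; simp
  have hb2 : b2 ∈ B := by rw [hb]; simp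
  obtain ⟨a, -, ha⟩ := exists_coords hF hr (hsing b0 (hbE b0 hb0))
  obtain ⟨c, -, hcc⟩ := exists_coords hK hr (hsing b0 (hbE b0 hb0))
  have ha0 : ∀ x ∈ M.E, a x ≠ 0 := by
    intro x hx
    have h1 := (ha {x} (Set.singleton_subset_iff.mpr hx)).mp (hsing x hx)
    exact (linearIndepOn_singleton_iff (ZMod p)).mp h1
  have hsub : ∀ s ∈ M.E, ∀ t ∈ M.E, ∀ r ∈ M.E, ({s, t, r} : Set α) ⊆ M.E := by
    intro s hs t ht r hr x hx
    simp only [Set.mem_insert_iff, Set.mem_singleton_iff] at hx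
    rcases hx with rfl | rfl | rfl <;> assumption
  have hindA : ∀ s ∈ M.E, ∀ t ∈ M.E, ∀ r ∈ M.E, s ≠ t → s ≠ r → t ≠ r →
      (M.Indep {s, t, r} ↔ Dt (a s) (a t) (a r) ≠ 0) := by
    intro s hs t ht r hr h1 h2 h3
    rw [ha _ (hsub s hs t ht r hr), linearIndepOn_iff_Dt a h1 h2 h3]
  let C : α → Fin 3 → AlgebraicClosure K := fun x i => algebraMap K (AlgebraicClosure K) (c x i)
  have hDtC : ∀ s t r, Dt (C s) (C t) (C r) =
      algebraMap K (AlgebraicClosure K) (Dt (c s) (c t) (c r)) := by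
    intro s t r
    simp only [Dt, C, map_add, map_sub, map_mul]
  have hindC : ∀ s ∈ M.E, ∀ t ∈ M.E, ∀ r ∈ M.E, s ≠ t → s ≠ r → t ≠ r →
      (M.Indep {s, t, r} ↔ Dt (C s) (C t) (C r) ≠ 0) := by
    intro s hs t ht r hr h1 h2 h3
    rw [hcc _ (hsub s hs t ht r hr), linearIndepOn_iff_Dt c h1 h2 h3, hDtC, Ne, Ne,
      map_eq_zero_iff _ (algebraMap K (AlgebraicClosure K)).injective]
  have htriple : ∀ s ∈ M.E, ∀ t ∈ M.E, ∀ r ∈ M.E,
      Dt (a s) (a t) (a r) = 0 → Dt (C s) (C t) (C r) = 0 := by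
    intro s hs t ht r hr h
    by_cases h1 : s = t
    · rw [h1]
      exact Dt_self1 _ _
    by_cases h2 : s = r
    · rw [h2]
      exact Dt_self2 _ _
    by_cases h3 : t = r
    · rw [h3]
      exact Dt_self3 _ _
    have h4 := (hindA s hs t ht r hr h1 h2 h3).symm.trans (hindC s hs t ht r hr h1 h2 h3)
    by_contra h5
    exact (h4.mpr h5) h
  obtain ⟨m, k, hm, hmk⟩ := hgen (AlgebraicClosure K) n (fun P => C (e P)) (by
    intro P Q hPQ
    obtain ⟨r, hrE, h1, h2, h3⟩ := third' hs hr (heE P) (heE Q) (fun h => hPQ (heinj h))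
    exact pair_of_Dt ((hindC _ (heE P) _ (heE Q) _ hrE (fun h => hPQ (heinj h)) h1 h2).mp h3))
  have hHk : Hk m k p := by
    intro P f
    obtain ⟨i, j, hij, h⟩ := hcnt p n (fun P => a (e P)) (fun P => ha0 _ (heE P)) P f
    exact ⟨i, j, hij, (hmk _ _ _).mp (htriple _ (heE P) _ (heE (f i)) _ (heE (f j)) h)⟩
  have hnc : ∃ P Q R, ¬ Conc m k P Q R := by
    obtain ⟨P, hP⟩ := hsurj b0 (hBE hb0)
    obtain ⟨Q, hQ⟩ := hsurj b1 (hBE hb1)
    obtain ⟨R, hR⟩ := hsurj b2 (hBE hb2)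
    refine ⟨P, Q, R, fun h => ?_⟩
    have h1 := (hmk P Q R).mpr h
    simp only [hP, hQ, hR] at h1
    have h2 : M.Indep {b0, b1, b2} := by
      rw [← hb]
      exact hB.indep
    exact (hindC b0 (hbE b0 hb0) b1 (hbE b1 hb1) b2 (hbE b2 hb2) h01 h02 h12).mp h2 h1
  have hq : ∀ q : ℕ, 0 < q → 3 * q ≤ 4 * w * n → (q : AlgebraicClosure K) ≠ 0 := by
    intro q hq0 hq3 h
    have h1 : (q : K) = 0 := by
      apply (algebraMap K (AlgebraicClosure K)).injective
      rw [map_natCast, map_zero]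
      exact h
    have h2 : ringChar K ∣ q := (ringChar.spec K q).mp h1
    rcases hch with h3 | h3
    · rw [h3, zero_dvd_iff] at h2
      omega
    · have := Nat.le_of_dvd hq0 h2
      omega
  have hfinal := hksd (AlgebraicClosure K) n p w m k hm hp1 hpn hw hq hHk hnc
  exact absurd hfinal (not_le.mpr hineq)

end Pool.Agent.BOG.H90
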